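import Mathlib
import Pool.Agent.TH867.NA.Main
import Pool.Agent.TH867.NA.Low2

/-!
# Pairwise coprime tuples with sum zero, counted by their radical

For every `n ≥ 3` the number of admissible `n`-tuples (non-zero pairwise coprime integers with sum
zero) whose radical is at most `X` and whose entries are at most `exp ((1 + log X) ^ (2 + η))` in
absolute value is at most `C X ^ ((n - 1) / n + ε)`; the exponent `(n - 1) / n` is sharp.
-/

set_option autoImplicit false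

namespace Pool.Agent.Results.MP_7ecdd4_nt.CountByRadicalSharp

open Finset

/-- `x` is an admissible tuple: non-zero pairwise coprime integers with sum zero. -/
def Admissible {n : ℕ} (x : Fin n → ℤ) : Prop :=
  (∀ i, x i ≠ 0) ∧ (∀ i j, i ≠ j → IsCoprime (x i) (x j)) ∧ ∑ i, x i = 0

/-- The radical of the product of all entries. -/
def radical {n : ℕ} (x : Fin n → ℤ) : ℕ := ∏ p ∈ (∏ i, x i).natAbs.primeFactors, p

/-- The radical of the product of all entries but the `j`-th. -/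
def radicalWithout {n : ℕ} (x : Fin n → ℤ) (j : Fin n) : ℕ :=
  ∏ p ∈ (∏ i ∈ univ.erase j, x i).natAbs.primeFactors, p

/-- The admissible `n`-tuples with radical at most `X` and entries at most `H` in absolute
value. -/
def Tuples (n : ℕ) (X H : ℝ) : Set (Fin n → ℤ) :=
  {x | Admissible x ∧ (radical x : ℝ) ≤ X ∧ ∀ i, |(x i : ℝ)| ≤ H}

/-- The admissible `n`-tuples with entries at most `H` in absolute value, such that the product of
some `n - 1` entries has radical at most `Z`. -/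
def TuplesWithout (n : ℕ) (Z H : ℝ) : Set (Fin n → ℤ) :=
  {x | Admissible x ∧ (∃ j, (radicalWithout x j : ℝ) ≤ Z) ∧ ∀ i, |(x i : ℝ)| ≤ H}

theorem finite_box (n : ℕ) (H : ℝ) : {x : Fin n → ℤ | ∀ i, |(x i : ℝ)| ≤ H}.Finite := by
  have h1 : {x : Fin n → ℤ | ∀ i, |(x i : ℝ)| ≤ H} ⊆
      Set.pi Set.univ fun _ : Fin n => Set.Icc (-⌊H⌋) ⌊H⌋ := by
    intro x hx i _
    have h2 := abs_le.1 (hx i)
    rw [Set.mem_Icc]
    constructor
    · have : -x i ≤ ⌊H⌋ := by
        rw [Int.le_floor]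
        push_cast
        linarith [h2.1]
      linarith
    · rw [Int.le_floor]
      exact h2.2
  exact (Set.Finite.pi' fun _ => Set.finite_Icc _ _).subset fun x hx i => h1 hx i trivial

theorem log_radWithout {n : ℕ} (x : Fin n → ℤ) (h0 : ∀ i, x i ≠ 0)
    (hc : ∀ i j, i ≠ j → IsCoprime (x i) (x j)) (j : Fin n) :
    Real.log (radicalWithout x j : ℝ) =
      ∑ i, Pool.Agent.TH867.SQ.lr (x i).natAbs - Pool.Agent.TH867.SQ.lr (x j).natAbs := by
  classical
  unfold radicalWithout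
  have h1 : (∏ i ∈ univ.erase j, x i).natAbs = ∏ i ∈ univ.erase j, (x i).natAbs :=
    map_prod Int.natAbsHom _ _
  rw [← sum_erase_eq_sub (mem_univ j), h1,
    ← Pool.Agent.TH867.NA.lr_prod (univ.erase j) (fun i => (x i).natAbs)
    (fun i _ => Int.natAbs_ne_zero.2 (h0 i))
    (fun i _ j _ hij => Int.isCoprime_iff_gcd_eq_one.1 (hc i j hij))]
  unfold Pool.Agent.TH867.SQ.lr
  push_cast
  rw [Real.log_prod]
  intro p hp
  exact_mod_cast (Nat.prime_of_mem_primeFactors hp).pos.ne'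

theorem radical_pos {s : ℕ} : 0 < ((∏ p ∈ s.primeFactors, p : ℕ) : ℝ) := by
  exact_mod_cast prod_pos fun p hp => (Nat.prime_of_mem_primeFactors hp).pos

theorem radical_le {n : ℕ} (x : Fin n → ℤ) (h0 : ∀ i, x i ≠ 0) :
    radical x ≤ ∏ i, (x i).natAbs := by
  have h1 : (∏ i, x i).natAbs = ∏ i, (x i).natAbs := map_prod Int.natAbsHom _ _
  rw [← h1]
  exact Nat.le_of_dvd (Int.natAbs_pos.2 (prod_ne_zero_iff.2 fun i _ => h0 i))
    (Nat.prod_primeFactors_dvd _)

theorem without (n : ℕ) (hn : 3 ≤ n) (ε : ℝ) (hε : 0 < ε) : ∃ η : ℝ, 0 < η ∧ ∃ C : ℝ, 0 < C ∧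
    ∀ X Z : ℝ, 1 ≤ Z → Z ≤ X →
      (TuplesWithout n Z (Real.exp ((1 + Real.log X) ^ (2 + η)))).Finite ∧
      ((TuplesWithout n Z (Real.exp ((1 + Real.log X) ^ (2 + η)))).ncard : ℝ) ≤
        C * X ^ ε * Z := by
  classical
  obtain ⟨m, rfl⟩ : ∃ m, n = m + 1 := ⟨n - 1, by omega⟩
  obtain ⟨η, hη, C, hC, h⟩ := Pool.Agent.TH867.NA.upper m ε hε
  refine ⟨η, hη, C, hC, fun X Z hZ hZX => ?_⟩
  have hfin : (TuplesWithout (m + 1) Z (Real.exp ((1 + Real.log X) ^ (2 + η)))).Finite :=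
    (finite_box (m + 1) _).subset fun x hx => hx.2.2
  refine ⟨hfin, ?_⟩
  rw [Set.ncard_eq_toFinset_card _ hfin]
  refine h X Z (hZ.trans hZX) hZ hZX _ fun x hx => ?_
  obtain ⟨⟨h0, hc, hs⟩, ⟨j, hj⟩, hH⟩ := (Set.Finite.mem_toFinset _).1 hx
  refine ⟨h0, hs, fun i => ?_, j, ?_⟩
  · have h1 : (0 : ℝ) < |(x i : ℝ)| := abs_pos.2 (by exact_mod_cast h0 i)
    rw [Real.log_le_iff_le_exp h1]
    exact hH i
  · rw [← log_radWithout x h0 hc j]
    exact Real.log_le_log radical_pos hj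

/-- **Pairwise coprime `n`-tuples with sum zero, counted by their radical.** -/
theorem result (n : ℕ) (hn : 3 ≤ n) :
    (∀ ε : ℝ, 0 < ε → ∃ η : ℝ, 0 < η ∧ ∃ C : ℝ, 0 < C ∧ ∀ X : ℝ, 1 ≤ X →
      (Tuples n X (Real.exp ((1 + Real.log X) ^ (2 + η)))).Finite ∧
      ((Tuples n X (Real.exp ((1 + Real.log X) ^ (2 + η)))).ncard : ℝ) ≤
        C * X ^ (((n : ℝ) - 1) / n + ε)) ∧
    (∃ c : ℝ, 0 < c ∧ ∃ X₀ : ℝ, 1 ≤ X₀ ∧ ∀ X : ℝ, X₀ ≤ X →
      (Tuples n X X).Finite ∧ c * X ^ (((n : ℝ) - 1) / n) ≤ (Tuples n X X).ncard) ∧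
    (∀ ε : ℝ, 0 < ε → ∃ η : ℝ, 0 < η ∧ ∃ C : ℝ, 0 < C ∧ ∀ X Z : ℝ, 1 ≤ Z → Z ≤ X →
      (TuplesWithout n Z (Real.exp ((1 + Real.log X) ^ (2 + η)))).Finite ∧
      ((TuplesWithout n Z (Real.exp ((1 + Real.log X) ^ (2 + η)))).ncard : ℝ) ≤
        C * X ^ ε * Z) := by
  classical
  refine ⟨fun ε hε => ?_, ?_, fun ε hε => without n hn ε hε⟩
  · obtain ⟨η, hη, C, hC, h⟩ := without n hn ε hε
    refine ⟨η, hη, C, hC, fun X hX => ?_⟩
    have hX0 : 0 < X := by linarith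
    have hn0 : (0 : ℝ) < n := by exact_mod_cast (by omega : 0 < n)
    have hn1 : (1 : ℝ) ≤ n := by exact_mod_cast (by omega : 1 ≤ n)
    have he0 : 0 ≤ ((n : ℝ) - 1) / n := div_nonneg (by linarith) hn0.le
    have he1 : ((n : ℝ) - 1) / n ≤ 1 := by
      rw [div_le_one hn0]
      linarith
    obtain ⟨h1, h2⟩ := h X (X ^ (((n : ℝ) - 1) / n)) (Real.one_le_rpow hX he0) (by
      calc X ^ (((n : ℝ) - 1) / n) ≤ X ^ (1 : ℝ) := Real.rpow_le_rpow_of_exponent_le hX he1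
        _ = X := Real.rpow_one X)
    have hsub : Tuples n X (Real.exp ((1 + Real.log X) ^ (2 + η))) ⊆
        TuplesWithout n (X ^ (((n : ℝ) - 1) / n)) (Real.exp ((1 + Real.log X) ^ (2 + η))) := by
      rintro x ⟨hx, hr, hH⟩
      refine ⟨hx, ?_, hH⟩
      obtain ⟨m, rfl⟩ : ∃ m, n = m + 1 := ⟨n - 1, by omega⟩
      obtain ⟨j, hj⟩ := Pool.Agent.TH867.NA.exists_large
        fun i => Pool.Agent.TH867.SQ.lr (x i).natAbs
      refine ⟨j, ?_⟩
      have e1 := log_radWithout x hx.1 hx.2.1 j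
      have e2 := Pool.Agent.TH867.NA.log_rad x hx.1 hx.2.1
      have e3 : Real.log (radical x : ℝ) ≤ Real.log X := Real.log_le_log radical_pos hr
      have e4 : Real.log (radicalWithout x j : ℝ) ≤ ((m : ℝ) / (m + 1)) * Real.log X := by
        rw [e1]
        refine hj.trans (mul_le_mul_of_nonneg_left ?_ (by positivity))
        rw [← e2]
        exact e3
      have e5 : (radicalWithout x j : ℝ) ≤ Real.exp (((m : ℝ) / (m + 1)) * Real.log X) :=
        (Real.log_le_iff_le_exp radical_pos).1 e4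
      refine e5.trans (le_of_eq ?_)
      rw [Real.rpow_def_of_pos hX0]
      congr 1
      push_cast
      ring
    refine ⟨h1.subset hsub, ?_⟩
    calc ((Tuples n X (Real.exp ((1 + Real.log X) ^ (2 + η)))).ncard : ℝ)
        ≤ ((TuplesWithout n (X ^ (((n : ℝ) - 1) / n))
          (Real.exp ((1 + Real.log X) ^ (2 + η)))).ncard : ℝ) := by
          exact_mod_cast Set.ncard_le_ncard hsub h1
      _ ≤ C * X ^ ε * X ^ (((n : ℝ) - 1) / n) := h2
      _ = C * X ^ (((n : ℝ) - 1) / n + ε) := by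
          rw [Real.rpow_add hX0]
          ring
  · obtain ⟨m, rfl⟩ : ∃ m, n = m + 1 := ⟨n - 1, by omega⟩
    obtain ⟨c, hc, X₀, hX₀, h⟩ := Pool.Agent.TH867.NA.lower (m := m) (by omega)
    refine ⟨c, hc, X₀, hX₀, fun X hX => ?_⟩
    have hfin : (Tuples (m + 1) X X).Finite :=
      (finite_box (m + 1) _).subset fun x hx => hx.2.2
    refine ⟨hfin, ?_⟩
    obtain ⟨G, hG, hGc⟩ := h X hX
    have e1 : (((m + 1 : ℕ) : ℝ) - 1) / ((m + 1 : ℕ) : ℝ) = (m : ℝ) / (m + 1) := by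
      push_cast
      ring
    rw [e1]
    refine hGc.trans ?_
    rw [Set.ncard_eq_toFinset_card _ hfin]
    have hsub : G ⊆ hfin.toFinset := by
      intro x hx
      obtain ⟨h0, hco, hs, hp⟩ := hG x hx
      rw [Set.Finite.mem_toFinset]
      refine ⟨⟨h0, hco, hs⟩, ?_, fun i => ?_⟩
      · refine le_trans ?_ hp
        exact_mod_cast radical_le x h0
      · refine le_trans ?_ hp
        have h2 : (x i).natAbs ≤ ∏ i, (x i).natAbs :=
          Nat.le_of_dvd (prod_pos fun i _ => Int.natAbs_pos.2 (h0 i)) (dvd_prod_of_mem _ (mem_univ i))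
        calc |(x i : ℝ)| = ((x i).natAbs : ℝ) := by rw [Nat.cast_natAbs, Int.cast_abs]
          _ ≤ _ := by exact_mod_cast h2
    exact_mod_cast card_le_card hsub

end Pool.Agent.Results.MP_7ecdd4_nt.CountByRadicalSharp
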