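import Mathlib
import Pool.Agent.TH96.NC.Even3

/-!
# MP_7ecdd4_nt: exponents in the strong n-conjecture for even `n` are at least `7/5`

For every even `n ≥ 6` and all reals `q < 7/5` and `K` there are infinitely many admissible
`n`-tuples `x` (non-zero, pairwise coprime integers with sum zero) with
`max |x_j| > K rad(x_1 ⋯ x_n) ^ q`. Hence every exponent `M_n` which is admissible in Q1, even up to a
constant factor or up to finitely many tuples, is at least `7/5`.

The tuples come from the identity, with `m = X - 24`,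

`X ^ 7 - (X - 48) ^ 7 - (7 m ^ 2 + 7488) ^ 3 + 7 (m ^ 2 + 6336) ^ 3 = 2 ^ 28 3 ^ 6 7`,

all of whose terms can be made odd and pairwise coprime. Here `X` runs through the powers of `11`
congruent to `1` modulo a fixed number `L`; the last two entries of the tuple are `-(2 ^ 28 3 ^ 6 7 + 1)`
and `1`, followed by pairs `1, -1`. The largest entry is at least `X ^ 7` and the radical is at
most a constant times `X (X ^ 2) (X ^ 2)`, since `X` contributes only the factor `11`.
-/

set_option autoImplicit false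

namespace Pool.Agent.Results.MP_7ecdd4_nt.EvenLengths

/-- `x` is an admissible tuple: non-zero pairwise coprime integers with sum zero. -/
def Admissible {n : ℕ} (x : Fin n → ℤ) : Prop :=
  (∀ i, x i ≠ 0) ∧ (∀ i j, i ≠ j → Int.gcd (x i) (x j) = 1) ∧ ∑ i, x i = 0

/-- The radical of `x_1 ⋯ x_n`: the product of the primes dividing it. -/
def rad {n : ℕ} (x : Fin n → ℤ) : ℕ := ∏ p ∈ (∏ i, x i).natAbs.primeFactors, p

/-- **Exponents in the strong `n`-conjecture, `n` even.** -/
theorem result (n : ℕ) (hn : 6 ≤ n) (he : Even n) :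
    (∀ q K : ℝ, q < 7 / 5 →
      {x : Fin n → ℤ | Admissible x ∧ ∃ j, K * (rad x : ℝ) ^ q < |((x j : ℤ) : ℝ)|}.Infinite) ∧
    (∀ M K : ℝ,
      {x : Fin n → ℤ | Admissible x ∧ ¬ ∀ j, |((x j : ℤ) : ℝ)| ≤ K * (rad x : ℝ) ^ M}.Finite →
        7 / 5 ≤ M) := by
  have h : ∀ q K : ℝ, q < 7 / 5 →
      {x : Fin n → ℤ | Admissible x ∧ ∃ j, K * (rad x : ℝ) ^ q < |((x j : ℤ) : ℝ)|}.Infinite := by
    intro q K hq
    obtain ⟨t₀, h48, ht₀⟩ := TH96.NC.exists_t0 hq K n hn
    refine Set.infinite_of_injective_forall_mem (f := fun t : ℕ => TH96.NC.tup n (t₀ + t)) ?_ ?_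
    · intro s t hst
      have := TH96.NC.tup_inj n hn hst
      omega
    · intro t
      exact ⟨TH96.NC.adm_tup hn he (by omega), ⟨0, by omega⟩, ht₀ (t₀ + t) (by omega)⟩
  refine ⟨h, fun M K hfin => ?_⟩
  by_contra hM
  rw [not_le] at hM
  refine h M K hM (hfin.subset ?_)
  rintro x ⟨hx, j, hj⟩
  exact ⟨hx, fun hall => absurd (hall j) (not_le.mpr hj)⟩

end Pool.Agent.Results.MP_7ecdd4_nt.EvenLengths
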