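import Pool.Agent.TH285.SN.Asym

/-!
# The strong n-conjecture: the exponents `5/3` (odd `n`) and `7/5` (even `n`) with a secondary factor

For every `n ≥ 5` there are infinitely many admissible `n`-tuples (non-zero pairwise coprime integers
with sum zero) with `max |x_j| ≥ c (R log R) ^ q`, where `R = rad (x_1 ⋯ x_n)`, `q = 5/3` if `n` is
odd and `q = 7/5` if `n` is even. Hence every exponent `M` for which `max |x_j| ≤ K R ^ M` holds for
all but finitely many admissible `n`-tuples, with some constant `K`, is strictly larger than `q`.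

The tuples come from `X ^ 5 - (X - 2) ^ 5 - 10 ((X - 1) ^ 2 + 1) ^ 2 + 9 - 1 = 0` with `X` a power of
`31` such that `17 ^ (m + 1)` divides `X - 2`, and from the identity of `MP_7ecdd4_nt.EvenLengths`
with `X` a power of `11` such that `47 ^ (m + 1)` divides `X - 48`.
-/

set_option autoImplicit false

namespace Pool.Agent.Results.MP_7ecdd4_nt.LogFactor

/-- `x` is an admissible tuple: non-zero pairwise coprime integers with sum zero. -/
def Admissible {n : ℕ} (x : Fin n → ℤ) : Prop :=
  (∀ i, x i ≠ 0) ∧ (∀ i j, i ≠ j → Int.gcd (x i) (x j) = 1) ∧ ∑ i, x i = 0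

/-- The radical of `x_1 ⋯ x_n`: the product of the primes dividing it. -/
def rad {n : ℕ} (x : Fin n → ℤ) : ℕ := ∏ p ∈ (∏ i, x i).natAbs.primeFactors, p

/-- `5/3` for odd `n`, `7/5` for even `n`. -/
noncomputable def q (n : ℕ) : ℝ := if Odd n then 5 / 3 else 7 / 5

/-- **Lower bounds in the strong `n`-conjecture with a logarithmic factor.** -/
theorem result (n : ℕ) (hn : 5 ≤ n) :
    (∃ c : ℝ, 0 < c ∧ {x : Fin n → ℤ | Admissible x ∧
      ∃ j, c * ((rad x : ℝ) * Real.log (rad x)) ^ q n ≤ |((x j : ℤ) : ℝ)|}.Infinite) ∧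
    (∀ M K : ℝ,
      {x : Fin n → ℤ | Admissible x ∧ ¬ ∀ j, |((x j : ℤ) : ℝ)| ≤ K * (rad x : ℝ) ^ M}.Finite →
        q n < M) :=
  ⟨TH285.SN.main n hn, fun M K h => TH285.SN.strict n hn M K h⟩

end Pool.Agent.Results.MP_7ecdd4_nt.LogFactor
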