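import Mathlib
import Pool.Agent.TH551.HA.NTMain

/-!
# MP_7ecdd4_nt: the strong n-conjecture for products of powers of short sums of S-units

Let `N`, `p`, `k`, `τ : {1, …, p} → {1, …, N}`, exponents `e i ≥ 1`, a finitely generated group `Γ`
of rational numbers (for instance all `S`-units for a finite set `S` of primes) and `ε > 0` be
given. There is `K` such that for all pairwise coprime nonzero integers `A 1 + … + A N = 0` (no
condition on subsums) of the form `A σ = w σ * ∏ x i ^ e i` (product over the `i` with `τ i = σ`),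
`w σ` in `Γ`, the `x i` integers which are sums of at most `k` elements of `Γ` with integral
coefficients of absolute value at most `M`, we have

  `|A σ| ^ (1 - ε) ≤ (K M) ^ K ∏ |x i| ^ min (e i, N - 2)` for all `σ`.

So `max |A σ|` is at most about the power `N - 2` of the product of the `x i`, which takes the place
of the radical (it is the radical, outside the prime factors of the `w σ`, when the `x i` are
squarefree and pairwise coprime).
-/

set_option autoImplicit false

namespace Pool.Agent.Results.MP_7ecdd4_nt.SparseStrongN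

theorem result (p k N : ℕ) (τ : Fin p → Fin N) (e : Fin p → ℕ) (he : ∀ i, 1 ≤ e i)
    (Γ : Subgroup ℚˣ) (hΓ : Γ.FG) (ε : ℝ) (hε : 0 < ε) :
    ∃ K : ℝ, 0 < K ∧ ∀ M : ℝ, 1 ≤ M → ∀ (u : Fin p → Fin k → Γ) (c : Fin p → Fin k → ℤ),
      (∀ i j, |(c i j : ℝ)| ≤ M) → ∀ x : Fin p → ℤ,
      (∀ i, (x i : ℚ) = ∑ j, ((u i j : ℚˣ) : ℚ) * c i j) →
      ∀ w A : Fin N → ℤ, (∀ σ, ∃ g ∈ Γ, (w σ : ℚ) = (g : ℚ)) →
      (∀ σ, A σ = w σ * ∏ i with τ i = σ, x i ^ (e i)) → (∀ σ, A σ ≠ 0) →
      ∑ σ, A σ = 0 → (∀ σ σ', σ ≠ σ' → IsCoprime (A σ) (A σ')) →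
      ∀ j, |(A j : ℝ)| ^ (1 - ε) ≤
        (K * M) ^ K * ∏ i, |(x i : ℝ)| ^ (min (e i) (N - 2)) :=
  Pool.Agent.TH551.HA.ntStrong p k N τ e he Γ hΓ ε hε

end Pool.Agent.Results.MP_7ecdd4_nt.SparseStrongN
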